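import Mathlib

/-!
# General band-limited test functions

`PhiData` packages a `C²` function on `[0,1]` vanishing at `1`, with explicit bounds.
`gfun P D` is the Fourier side divided by the Poisson factor, `AA P D` its cosine transform.
-/

namespace Pool.Agent.ZGap.Gen

open MeasureTheory Real Set intervalIntegral

/-- Data of the Fourier side of a test function. -/
structure PhiData where
  /-- the function -/
  f0 : ℝ → ℝ
  /-- first derivative -/
  f1 : ℝ → ℝ
  /-- second derivative -/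
  f2 : ℝ → ℝ
  c0 : Continuous f0
  c1 : Continuous f1
  c2 : Continuous f2
  d0 : ∀ v, HasDerivAt f0 (f1 v) v
  d1 : ∀ v, HasDerivAt f1 (f2 v) v
  one : f0 1 = 0
  b0 : ∀ v, 0 ≤ v → v ≤ 1 → |f0 v| ≤ 2
  b1 : ∀ v, 0 ≤ v → v ≤ 1 → |f1 v| ≤ 5
  b2 : ∀ v, 0 ≤ v → v ≤ 1 → |f2 v| ≤ 24

attribute [fun_prop] PhiData.c0 PhiData.c1 PhiData.c2

variable {P : PhiData}

/-- The Fourier side divided by the Poisson factor. -/
noncomputable def gfun (P : PhiData) (D ξ : ℝ) : ℝ := P.f0 (min (|ξ| / D) 1) * Real.exp |ξ|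

@[fun_prop]
lemma gfun_continuous (P : PhiData) (D : ℝ) : Continuous (gfun P D) := by
  unfold gfun; fun_prop

lemma gfun_of_le {D ξ : ℝ} (hD : 0 < D) (h : D ≤ |ξ|) : gfun P D ξ = 0 := by
  unfold gfun
  rw [min_eq_right ((one_le_div hD).mpr h), P.one, zero_mul]

lemma gfun_of_nonneg_le {D ξ : ℝ} (hD : 0 < D) (h0 : 0 ≤ ξ) (h : ξ ≤ D) :
    gfun P D ξ = P.f0 (ξ / D) * Real.exp ξ := by
  unfold gfun
  rw [abs_of_nonneg h0, min_eq_left ((div_le_one hD).mpr h)]

lemma gfun_neg (D ξ : ℝ) : gfun P D (-ξ) = gfun P D ξ := by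
  unfold gfun; rw [abs_neg]

lemma gfun_hasCompactSupport {D : ℝ} (hD : 0 < D) : HasCompactSupport (gfun P D) := by
  refine HasCompactSupport.intro (isCompact_Icc (a := -D) (b := D)) fun ξ hξ => ?_
  apply gfun_of_le hD
  by_contra h
  push Not at h
  exact hξ (abs_le.mp h.le)

lemma gfun_integrable {D : ℝ} (hD : 0 < D) : Integrable (gfun P D) :=
  (gfun_continuous P D).integrable_of_hasCompactSupport (gfun_hasCompactSupport hD)

/-- The cosine transform of `gfun` over `[0, D]`. -/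
noncomputable def AA (P : PhiData) (D u : ℝ) : ℝ :=
  ∫ ξ in (0:ℝ)..D, P.f0 (ξ / D) * Real.exp ξ * Real.cos (u * ξ)

/-- Derivatives of `ξ ↦ phi (ξ/D) e^ξ`. -/
lemma hasDerivAt_f (D ξ : ℝ) :
    HasDerivAt (fun ξ => P.f0 (ξ / D) * Real.exp ξ)
      ((P.f1 (ξ / D) / D + P.f0 (ξ / D)) * Real.exp ξ) ξ := by
  have h1 : HasDerivAt (fun ξ : ℝ => ξ / D) (1 / D) ξ := by
    simpa using (hasDerivAt_id ξ).div_const D
  have h2 := ((P.d0 (ξ / D)).comp ξ h1).mul (Real.hasDerivAt_exp ξ)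
  refine h2.congr_deriv ?_
  simp only [Function.comp_apply]
  ring

lemma hasDerivAt_f1 {D : ℝ} (hD : 0 < D) (ξ : ℝ) :
    HasDerivAt (fun ξ => (P.f1 (ξ / D) / D + P.f0 (ξ / D)) * Real.exp ξ)
      ((P.f2 (ξ / D) / D ^ 2 + 2 * P.f1 (ξ / D) / D + P.f0 (ξ / D)) * Real.exp ξ) ξ := by
  have h1 : HasDerivAt (fun ξ : ℝ => ξ / D) (1 / D) ξ := by
    simpa using (hasDerivAt_id ξ).div_const D
  have h2 := ((((P.d1 (ξ / D)).comp ξ h1).div_const D).add
    ((P.d0 (ξ / D)).comp ξ h1)).mul (Real.hasDerivAt_exp ξ)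
  refine h2.congr_deriv ?_
  simp only [Function.comp_apply, Pi.add_apply]
  field_simp
  ring

lemma AA_eq {D u : ℝ} (hD : 0 < D) (hu : u ≠ 0) :
    AA P D u = ((P.f1 1 / D) * Real.exp D * Real.cos (u * D) -
      (P.f1 0 / D + P.f0 0)) / u ^ 2 -
      (∫ ξ in (0:ℝ)..D, (P.f2 (ξ / D) / D ^ 2 + 2 * P.f1 (ξ / D) / D + P.f0 (ξ / D)) *
        Real.exp ξ * Real.cos (u * ξ)) / u ^ 2 := by
  have hder : ∀ ξ ∈ Set.uIcc 0 D, HasDerivAt
      (fun ξ => (P.f0 (ξ / D) * Real.exp ξ) * Real.sin (u * ξ) / u +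
        ((P.f1 (ξ / D) / D + P.f0 (ξ / D)) * Real.exp ξ) * Real.cos (u * ξ) / u ^ 2)
      (P.f0 (ξ / D) * Real.exp ξ * Real.cos (u * ξ) +
        (P.f2 (ξ / D) / D ^ 2 + 2 * P.f1 (ξ / D) / D + P.f0 (ξ / D)) *
        Real.exp ξ * Real.cos (u * ξ) / u ^ 2) ξ := by
    intro ξ _
    have h1 : HasDerivAt (fun ξ : ℝ => u * ξ) u ξ := by
      simpa using (hasDerivAt_id ξ).const_mul u
    have h2 := ((hasDerivAt_f (P := P) D ξ).mul h1.sin).div_const u
    have h3 := ((hasDerivAt_f1 (P := P) hD ξ).mul h1.cos).div_const (u ^ 2)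
    refine (h2.add h3).congr_deriv ?_
    field_simp
    ring
  have hint := intervalIntegral.integral_eq_sub_of_hasDerivAt hder
    (Continuous.intervalIntegrable (by fun_prop) _ _)
  rw [intervalIntegral.integral_add (Continuous.intervalIntegrable (by fun_prop) _ _)
    (Continuous.intervalIntegrable (by fun_prop) _ _), intervalIntegral.integral_div] at hint
  have h4 : D / D = 1 := div_self hD.ne'
  simp only [h4, P.one, zero_div, mul_zero, Real.sin_zero, Real.exp_zero, Real.cos_zero,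
    zero_mul, add_zero, zero_add, mul_one] at hint
  rw [AA, eq_sub_iff_add_eq, hint]
  ring

lemma integral_exp_zero_le {D : ℝ} : ∫ ξ in (0:ℝ)..D, Real.exp ξ ≤ Real.exp D := by
  rw [integral_exp, Real.exp_zero]; linarith

lemma abs_integral_le_of_exp {D C : ℝ} (hD : 0 < D) (f : ℝ → ℝ) (hC : 0 ≤ C)
    (hf : ∀ ξ, 0 ≤ ξ → ξ ≤ D → |f ξ| ≤ C * Real.exp ξ) :
    |∫ ξ in (0:ℝ)..D, f ξ| ≤ C * Real.exp D := by
  have h1 : |∫ ξ in (0:ℝ)..D, f ξ| ≤ ∫ ξ in (0:ℝ)..D, C * Real.exp ξ := by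
    rw [← Real.norm_eq_abs]
    apply intervalIntegral.norm_integral_le_of_norm_le hD.le
    · refine Filter.Eventually.of_forall fun ξ hξ => ?_
      exact hf ξ hξ.1.le hξ.2
    · exact Continuous.intervalIntegrable (by fun_prop) _ _
  rw [intervalIntegral.integral_const_mul] at h1
  exact h1.trans (mul_le_mul_of_nonneg_left integral_exp_zero_le hC)

lemma abs_AA_le {D u : ℝ} (hD : 1 / 2 ≤ D) :
    |AA P D u| ≤ 284 * Real.exp D / (1 + u ^ 2) := by
  have hD0 : 0 < D := by linarith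
  have hDi : 1 / D ≤ 2 := by
    rw [div_le_iff₀ hD0]; linarith
  have hDi0 : 0 < 1 / D := by positivity
  have hexp : 1 ≤ Real.exp D := Real.one_le_exp hD0.le
  have hexp0 : 0 < Real.exp D := Real.exp_pos D
  have hv : ∀ ξ, 0 ≤ ξ → ξ ≤ D → 0 ≤ ξ / D ∧ ξ / D ≤ 1 := fun ξ h2 h3 =>
    ⟨by positivity, (div_le_one hD0).mpr h3⟩
  have triv : |AA P D u| ≤ 2 * Real.exp D := by
    unfold AA
    apply abs_integral_le_of_exp hD0 _ (by norm_num)
    intro ξ h2 h3
    rw [abs_mul, abs_mul, abs_of_pos (Real.exp_pos ξ)]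
    have h4 := P.b0 _ (hv ξ h2 h3).1 (hv ξ h2 h3).2
    have h5 := Real.abs_cos_le_one (u * ξ)
    calc _ ≤ 2 * Real.exp ξ * 1 := by gcongr
      _ = _ := by ring
  rcases le_or_gt 1 |u| with hu | hu
  · have hu0 : u ≠ 0 := by
      rintro rfl
      rw [abs_zero] at hu
      linarith
    have hu2 : 1 ≤ u ^ 2 := by
      rw [← sq_abs]; nlinarith
    have hu2' : 0 < u ^ 2 := by linarith
    have h6 : |AA P D u| ≤ 142 * Real.exp D / u ^ 2 := by
      rw [AA_eq hD0 hu0, ← sub_div, abs_div, abs_of_pos hu2']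
      gcongr
      have e1 : |(P.f1 1 / D) * Real.exp D * Real.cos (u * D)| ≤ 10 * Real.exp D := by
        rw [abs_mul, abs_mul, abs_div, abs_of_pos hD0, abs_of_pos hexp0]
        have h4 := P.b1 _ (zero_le_one) (le_refl 1)
        have h5 := Real.abs_cos_le_one (u * D)
        have h6 : |P.f1 1| / D ≤ 10 := by
          rw [div_eq_mul_one_div]
          calc |P.f1 1| * (1 / D) ≤ 5 * 2 := by gcongr
            _ = 10 := by norm_num
        calc _ ≤ 10 * Real.exp D * 1 := by gcongr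
          _ = _ := by ring
      have e2 : |P.f1 0 / D + P.f0 0| ≤ 12 * Real.exp D := by
        have h4 := P.b1 _ (le_refl 0) (zero_le_one)
        have h6 : |P.f1 0| / D ≤ 10 := by
          rw [div_eq_mul_one_div]
          calc |P.f1 0| * (1 / D) ≤ 5 * 2 := by gcongr
            _ = 10 := by norm_num
        have h7 := P.b0 0 le_rfl zero_le_one
        calc _ ≤ |P.f1 0 / D| + |P.f0 0| := abs_add_le _ _
          _ ≤ 10 + 2 := by
            rw [abs_div, abs_of_pos hD0]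
            gcongr
          _ ≤ 12 * Real.exp D := by linarith
      have e3 : |∫ ξ in (0:ℝ)..D, (P.f2 (ξ / D) / D ^ 2 + 2 * P.f1 (ξ / D) / D +
          P.f0 (ξ / D)) * Real.exp ξ * Real.cos (u * ξ)| ≤ 118 * Real.exp D := by
        apply abs_integral_le_of_exp hD0 _ (by norm_num)
        intro ξ h2 h3
        rw [abs_mul, abs_mul, abs_of_pos (Real.exp_pos ξ)]
        have h4 := P.b0 _ (hv ξ h2 h3).1 (hv ξ h2 h3).2
        have h4' := P.b1 _ (hv ξ h2 h3).1 (hv ξ h2 h3).2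
        have h4'' := P.b2 _ (hv ξ h2 h3).1 (hv ξ h2 h3).2
        have h5 := Real.abs_cos_le_one (u * ξ)
        have h6 : |P.f2 (ξ / D) / D ^ 2 + 2 * P.f1 (ξ / D) / D + P.f0 (ξ / D)| ≤ 118 := by
          have e4 : |P.f2 (ξ / D) / D ^ 2| ≤ 96 := by
            rw [abs_div, abs_of_pos (by positivity : 0 < D ^ 2)]
            calc |P.f2 (ξ / D)| / D ^ 2 = |P.f2 (ξ / D)| * (1 / D) ^ 2 := by
                  rw [div_pow, one_pow, div_eq_mul_one_div]
              _ ≤ 24 * 2 ^ 2 := by gcongr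
              _ = 96 := by norm_num
          have e5 : |2 * P.f1 (ξ / D) / D| ≤ 20 := by
            rw [abs_div, abs_of_pos hD0, abs_mul, abs_of_pos (by norm_num : (0:ℝ) < 2)]
            calc 2 * |P.f1 (ξ / D)| / D = 2 * |P.f1 (ξ / D)| * (1 / D) := by
                  rw [div_eq_mul_one_div]
              _ ≤ 2 * 5 * 2 := by gcongr
              _ = 20 := by norm_num
          have e6 := abs_add_le (P.f2 (ξ / D) / D ^ 2 + 2 * P.f1 (ξ / D) / D)
            (P.f0 (ξ / D))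
          have e7 := abs_add_le (P.f2 (ξ / D) / D ^ 2) (2 * P.f1 (ξ / D) / D)
          linarith
        calc _ ≤ 118 * Real.exp ξ * 1 := by gcongr
          _ = _ := by ring
      have e8 := abs_sub ((P.f1 1 / D) * Real.exp D * Real.cos (u * D))
        (P.f1 0 / D + P.f0 0)
      have e9 := abs_sub ((P.f1 1 / D) * Real.exp D * Real.cos (u * D) -
        (P.f1 0 / D + P.f0 0)) (∫ ξ in (0:ℝ)..D, (P.f2 (ξ / D) / D ^ 2 +
          2 * P.f1 (ξ / D) / D + P.f0 (ξ / D)) * Real.exp ξ * Real.cos (u * ξ))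
      linarith
    refine h6.trans ?_
    rw [div_le_div_iff₀ hu2' (by positivity)]
    nlinarith
  · have hu2 : u ^ 2 ≤ 1 := by
      rw [← sq_abs]; nlinarith [abs_nonneg u]
    refine triv.trans ?_
    rw [le_div_iff₀ (by positivity)]
    nlinarith

end Pool.Agent.ZGap.Gen
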