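import Pool.Agent.ZGap.Gen.Eval

/-!
# The explicit formula with a better error term

The error of `exists_explicit` is `e^D (1 + log t) / √t`; here it is `e^D (1 + log t) / t ^ θ` for
every `θ < 1`, so that the prime sum may have every length `t ^ b`, `b < 1`.
-/

namespace Pool.Agent.ZGap

open MeasureTheory Real Set ArithmeticFunction Pool.Agent.Hadamard

lemma Dg_diff_near {t : ℝ} (ht : 1 ≤ t) {u : ℝ} (hu : |u| ≤ t / 2) :
    |Dg (t - u) - Real.log (t / 2)| ≤ 24 * ((1 + |u|) / t) := by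
  have ht0 : 0 < t := by linarith
  have hlt : 0 ≤ Real.log t := Real.log_nonneg ht
  set v := t - u with hv
  set r := ‖sv v / 2‖ with hr
  have hr2 : r ^ 2 = (9 / 4 + v ^ 2) / 4 := norm_sv_half_sq v
  have hr34 : 3 / 4 ≤ r := norm_sv_half_ge v
  have hr0 : 0 < r := by linarith
  have hrv : |v| / 2 ≤ r := norm_sv_half_ge' v
  have h1 : |Dg v - Real.log r| ≤ 2 / r ^ 2 + 2 / r := Dg_sub_log v
  set y := (9 / 4 + v ^ 2) / t ^ 2 with hy
  have hy0 : 0 < y := by positivity
  have h2 : Real.log r - Real.log (t / 2) = Real.log y / 2 := by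
    rw [← Real.log_div hr0.ne' (by positivity)]
    have : y = (r / (t / 2)) ^ 2 := by
      rw [div_pow, hr2, hy]
      field_simp
      norm_num
    rw [this, Real.log_pow]
    push_cast
    ring
  have h3 : |Dg v - Real.log (t / 2)| ≤ (2 / r ^ 2 + 2 / r) + |Real.log y| / 2 := by
    have e : Dg v - Real.log (t / 2) = (Dg v - Real.log r) + (Real.log y / 2) := by
      rw [← h2]; ring
    rw [e]
    refine (abs_add_le _ _).trans ?_
    rw [abs_div, abs_of_pos (by norm_num : (0:ℝ) < 2)]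
    linarith
  refine h3.trans ?_
  set X := (1 + |u|) / t with hX
  have hau := abs_nonneg u
  have hX0 : 0 < X := by positivity
  have hsX : Real.sqrt X ^ 2 = X := Real.sq_sqrt hX0.le
  have hsX0 : 0 < Real.sqrt X := Real.sqrt_pos.mpr hX0
  have hvl : t / 2 ≤ v := by have := (abs_le.mp hu).2; rw [hv]; linarith
  have hrt : t / 4 ≤ r := by
    rw [abs_of_pos (by linarith)] at hrv; linarith
  have e1 : 2 / r ^ 2 + 2 / r ≤ 19 / t := by
    have e2 : 2 / r ≤ 8 / t := by
      rw [div_le_div_iff₀ hr0 ht0]; linarith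
    have e3 : 1 / r ≤ 4 / 3 := by
      rw [div_le_div_iff₀ hr0 (by norm_num)]; linarith
    have e4 : 2 / r ^ 2 = (2 / r) * (1 / r) := by field_simp
    rw [e4]
    calc 2 / r * (1 / r) + 2 / r ≤ 8 / t * (4 / 3) + 8 / t := by gcongr
      _ ≤ 19 / t := by rw [← sub_nonneg]; ring_nf; positivity
  have e5 : |Real.log y| ≤ 4 * |y - 1| := by
    have hy14 : 1 / 4 ≤ y := by
      rw [hy, div_le_div_iff₀ (by norm_num) (by positivity)]
      linarith only [pow_le_pow_left₀ (by positivity : 0 ≤ t / 2) hvl 2]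
    have e6 : Real.log y ≤ y - 1 := Real.log_le_sub_one_of_pos hy0
    have e7 : 1 - y⁻¹ ≤ Real.log y := Real.one_sub_inv_le_log_of_pos hy0
    rw [abs_le]
    constructor
    · have e8 : -(4 * |y - 1|) ≤ 1 - y⁻¹ := by
        have e9 : 1 - y⁻¹ = (y - 1) * y⁻¹ := by field_simp
        have e10 : y⁻¹ ≤ 4 := by
          rw [inv_le_comm₀ hy0 (by norm_num)]; linarith
        have e11 : 0 < y⁻¹ := by positivity
        rw [e9]
        have e12 := neg_abs_le (y - 1)
        linarith only [mul_le_mul_of_nonneg_right e12 e11.le, mul_le_mul_of_nonneg_left e10 (abs_nonneg (y - 1))]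
      linarith
    · have := le_abs_self (y - 1)
      linarith [abs_nonneg (y - 1)]
  have e13 : |y - 1| ≤ 5 / 2 * X := by
    have e14 : y - 1 = (9 / 4 - u * (2 * t - u)) / t ^ 2 := by
      rw [hy, hv]; field_simp; ring
    rw [e14, abs_div, abs_of_pos (by positivity : 0 < t ^ 2), hX, ← mul_div_assoc,
      div_le_div_iff₀ (by positivity) ht0]
    have e15 : |9 / 4 - u * (2 * t - u)| ≤ 9 / 4 + |u| * (5 / 2 * t) := by
      have e16 : |2 * t - u| ≤ 5 / 2 * t := by
        rw [abs_le]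
        have := abs_le.mp hu
        constructor <;> linarith
      calc _ ≤ |(9 / 4 : ℝ)| + |u * (2 * t - u)| := abs_sub _ _
        _ ≤ 9 / 4 + |u| * (5 / 2 * t) := by
          rw [abs_mul, abs_of_pos (by norm_num : (0:ℝ) < 9 / 4)]
          gcongr
    nlinarith only [mul_le_mul_of_nonneg_right e15 ht0.le, mul_le_mul_of_nonneg_right ht ht0.le, mul_nonneg hau ht0.le, ht0]
  have e17 : 19 / t ≤ 19 * X := by
    rw [hX, ← mul_div_assoc]
    gcongr
    linarith
  calc _ ≤ 19 * X + (4 * (5 / 2 * X)) / 2 := by linarith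
    _ = 24 * X := by ring

lemma Dg_diff_th {t θ : ℝ} (ht : 1 ≤ t) (h1 : 1 / 2 ≤ θ) (h2 : θ ≤ 1) (u : ℝ) :
    |Dg (t - u) - Real.log (t / 2)| ≤ 64 * (1 + Real.log t) * ((1 + |u|) / t) ^ θ := by
  have ht0 : 0 < t := by linarith
  have hlt : 0 ≤ Real.log t := Real.log_nonneg ht
  have hau := abs_nonneg u
  have hX0 : 0 < (1 + |u|) / t := by positivity
  set X := (1 + |u|) / t with hX
  have hXt : 0 < X ^ θ := Real.rpow_pos_of_pos hX0 _
  rcases le_or_gt |u| (t / 2) with hu | hu
  · have h3 := Dg_diff_near ht hu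
    have hX32 : X ≤ 3 / 2 := by
      rw [hX, div_le_iff₀ ht0]; linarith
    have h4 : X ^ (1 - θ) ≤ 3 / 2 := by
      calc X ^ (1 - θ) ≤ (3 / 2 : ℝ) ^ (1 - θ) :=
            Real.rpow_le_rpow hX0.le hX32 (by linarith)
        _ ≤ (3 / 2 : ℝ) ^ (1 : ℝ) := Real.rpow_le_rpow_of_exponent_le (by norm_num) (by linarith)
        _ = 3 / 2 := Real.rpow_one _
    have h5 : X = X ^ θ * X ^ (1 - θ) := by
      rw [← Real.rpow_add hX0]
      rw [show θ + (1 - θ) = 1 by ring, Real.rpow_one]
    have h6 : X ≤ X ^ θ * (3 / 2) := by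
      calc X = X ^ θ * X ^ (1 - θ) := h5
        _ ≤ _ := mul_le_mul_of_nonneg_left h4 hXt.le
    have h7 : 0 ≤ Real.log t * X ^ θ := mul_nonneg hlt hXt.le
    calc _ ≤ 24 * X := h3
      _ ≤ 24 * (X ^ θ * (3 / 2)) := by linarith
      _ ≤ 64 * (1 + Real.log t) * X ^ θ := by nlinarith
  · have h3 := Dg_diff ht u
    have hX12 : 1 / 2 ≤ X := by
      rw [hX, le_div_iff₀ ht0]; linarith
    have h4 : X ^ (1 / 2 - θ) ≤ 2 := by
      calc X ^ (1 / 2 - θ) ≤ (1 / 2 : ℝ) ^ (1 / 2 - θ) :=
            Real.rpow_le_rpow_of_nonpos (by norm_num) hX12 (by linarith)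
        _ ≤ (1 / 2 : ℝ) ^ (-1 : ℝ) :=
            Real.rpow_le_rpow_of_exponent_ge (by norm_num) (by norm_num) (by linarith)
        _ = 2 := by rw [Real.rpow_neg_one]; norm_num
    have h5 : Real.sqrt X = X ^ θ * X ^ (1 / 2 - θ) := by
      rw [← Real.rpow_add hX0, Real.sqrt_eq_rpow]
      congr 1
      ring
    have h6 : Real.sqrt X ≤ X ^ θ * 2 := by
      rw [h5]
      exact mul_le_mul_of_nonneg_left h4 hXt.le
    calc _ ≤ 32 * (1 + Real.log t) * Real.sqrt X := h3
      _ ≤ 32 * (1 + Real.log t) * (X ^ θ * 2) := mul_le_mul_of_nonneg_left h6 (by positivity)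
      _ = _ := by ring

lemma weight_integrable_th {θ : ℝ} (h0 : 0 ≤ θ) (h2 : θ < 1) :
    Integrable (fun u : ℝ => (1 + |u|) ^ θ / (1 + u ^ 2)) := by
  have h := integrable_rpow_neg_one_add_norm_sq (E := ℝ) (μ := volume) (r := 2 - θ)
    (by rw [Module.finrank_self]; push_cast; linarith)
  refine (h.const_mul 2).mono' ?_ (Filter.Eventually.of_forall fun u => ?_)
  · refine Continuous.aestronglyMeasurable ?_
    refine Continuous.div ?_ (by fun_prop) fun v => ?_
    · exact Continuous.rpow_const (by fun_prop) fun x => Or.inr h0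
    · positivity
  · have ha : 0 < 1 + u ^ 2 := by positivity
    rw [Real.norm_of_nonneg (by positivity), Real.norm_eq_abs, sq_abs]
    have e1 : 1 + |u| ≤ 2 * Real.sqrt (1 + u ^ 2) := by
      have e3 : 1 ≤ Real.sqrt (1 + u ^ 2) := by
        rw [Real.one_le_sqrt]; nlinarith [sq_nonneg u]
      have e4 : |u| ≤ Real.sqrt (1 + u ^ 2) := by
        apply Real.abs_le_sqrt; linarith
      linarith
    have e2 : (1 + |u|) ^ θ ≤ 2 * (1 + u ^ 2) ^ (θ / 2) := by
      calc (1 + |u|) ^ θ ≤ (2 * Real.sqrt (1 + u ^ 2)) ^ θ :=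
            Real.rpow_le_rpow (by positivity) e1 h0
        _ = 2 ^ θ * (1 + u ^ 2) ^ (θ / 2) := by
            rw [Real.mul_rpow (by norm_num) (Real.sqrt_nonneg _), Real.sqrt_eq_rpow,
              ← Real.rpow_mul ha.le]
            congr 2
            ring
        _ ≤ 2 * (1 + u ^ 2) ^ (θ / 2) := by
            refine mul_le_mul_of_nonneg_right ?_ (by positivity)
            calc (2:ℝ) ^ θ ≤ 2 ^ (1:ℝ) :=
                  Real.rpow_le_rpow_of_exponent_le (by norm_num) h2.le
              _ = 2 := Real.rpow_one _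
    rw [div_le_iff₀ ha]
    have e5 : (1 + u ^ 2) ^ (-(2 - θ) / 2 : ℝ) * (1 + u ^ 2) = (1 + u ^ 2) ^ (θ / 2) := by
      nth_rewrite 2 [← Real.rpow_one (1 + u ^ 2)]
      rw [← Real.rpow_add ha]
      congr 1
      ring
    rw [mul_assoc, e5]
    exact e2

end Pool.Agent.ZGap

namespace Pool.Agent.ZGap.Gen

open MeasureTheory Real Set ArithmeticFunction Pool.Agent.Hadamard Pool.Agent.DirPoly

variable {P : PhiData}

/-- **Explicit formula** for the integral. -/
theorem exists_integral_AA_Zr_th {θ : ℝ} (h1 : 1 / 2 ≤ θ) (h2 : θ < 1) : ∃ C : ℝ, 0 < C ∧ ∀ (P : PhiData) (D : ℝ) (x : ℕ) (t : ℝ),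
    1 / 2 ≤ D → Real.exp D ≤ x + 1 → 1 ≤ t →
    |(∫ u : ℝ, AA P D u * Zr (t - u)) -
      (π * P.f0 0 / 2 * Real.log (t / (2 * π)) - π * (vmPoly (bb P D) x t).re)| ≤
      C * Real.exp D * (1 + Real.log t) / t ^ θ := by
  set C2 := ∫ u : ℝ, (1 + |u|) ^ θ / (1 + u ^ 2) with hC2
  have hC20 : 0 ≤ C2 := integral_nonneg fun u => by positivity
  have hpi := Real.pi_pos
  have hpos1 : 0 < 4 * 284 * (8 * π) := by positivity
  have hpos2 : 0 ≤ 32 * 284 * C2 := mul_nonneg (by norm_num) hC20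
  refine ⟨4 * 284 * (8 * π) + 32 * 284 * C2 + 1, by linarith, fun P D x t hD hDx ht => ?_⟩
  set X := Real.exp D with hexp
  have hX0 : 0 < X := Real.exp_pos D
  have ht0 : 0 < t := by linarith
  have hlt : 0 ≤ Real.log t := Real.log_nonneg ht
  have hst : 0 < t ^ θ := Real.rpow_pos_of_pos ht0 _
  have hAint := AA_integrable (P := P) hD
  have hAc := AA_continuous P D
  -- integrability of the pieces
  have i1 : Integrable (fun u : ℝ => AA P D u * Zs (t - u)) := by
    refine (hAint.norm.mul_const (∑' n : ℕ, vonMangoldt n * (n : ℝ) ^ (-(3 / 2) : ℝ))).mono' ?_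
      (Filter.Eventually.of_forall fun u => ?_)
    · have := Zs_continuous
      exact Continuous.aestronglyMeasurable (by fun_prop)
    · rw [norm_mul, Real.norm_eq_abs (Zs _)]
      gcongr
      exact abs_Zs_le _
  have i2 : Integrable (fun u : ℝ => AA P D u * QQ (t - u)) := by
    refine ((AA_poisson_integrable (P := P) hD t).norm.const_mul 4).mono' ?_
      (Filter.Eventually.of_forall fun u => ?_)
    · exact Continuous.aestronglyMeasurable (by fun_prop)
    · rw [norm_mul, norm_mul, Real.norm_eq_abs (QQ _),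
        Real.norm_of_nonneg (by positivity : 0 ≤ 1 / (1 + (t - u) ^ 2))]
      calc _ ≤ ‖AA P D u‖ * (4 * (1 / (1 + (t - u) ^ 2))) := by
            gcongr
            exact abs_QQ_le _
        _ = _ := by ring
  have hpt : ∀ u : ℝ, |AA P D u * (Dg (t - u) - Real.log (t / 2))| ≤
      284 * X * (64 * (1 + Real.log t)) / t ^ θ * ((1 + |u|) ^ θ / (1 + u ^ 2)) := by
    intro u
    rw [abs_mul]
    have h4 := abs_AA_le (P := P) (u := u) hD
    have h5 := Dg_diff_th ht h1 h2.le u
    calc _ ≤ (284 * X / (1 + u ^ 2)) *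
          (64 * (1 + Real.log t) * ((1 + |u|) / t) ^ θ) := by gcongr
      _ = _ := by
          rw [Real.div_rpow (by positivity) ht0.le]
          field_simp
  have i3 : Integrable (fun u : ℝ => AA P D u * (Dg (t - u) - Real.log (t / 2))) := by
    refine ((weight_integrable_th (by linarith) h2).const_mul
      (284 * X * (64 * (1 + Real.log t)) / t ^ θ)).mono' ?_
      (Filter.Eventually.of_forall fun u => ?_)
    · have := Dg_continuous
      exact Continuous.aestronglyMeasurable (by fun_prop)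
    · rw [Real.norm_eq_abs]; exact hpt u
  have e0 : ∀ u : ℝ, AA P D u * Zr (t - u) =
      (-(AA P D u * Zs (t - u)) + AA P D u * QQ (t - u)) +
      ((1 / 2) * (AA P D u * (Dg (t - u) - Real.log (t / 2))) +
        (Real.log (t / 2) / 2 - Real.log π / 2) * AA P D u) := by
    intro u
    unfold Zr Zs
    ring
  have hA0 : ∫ u : ℝ, AA P D u = π * P.f0 0 := by
    have h4 := (integral_AA_cos_sin (P := P) hD 0).1
    simp only [mul_zero, Real.cos_zero, mul_one] at h4
    rw [h4]
    unfold gfun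
    rw [abs_zero, zero_div, min_eq_left (by norm_num), Real.exp_zero, mul_one]
  have e1 : ∫ u : ℝ, AA P D u * Zr (t - u) =
      (-(π * (vmPoly (bb P D) x t).re) + ∫ u : ℝ, AA P D u * QQ (t - u)) +
      ((1 / 2) * (∫ u : ℝ, AA P D u * (Dg (t - u) - Real.log (t / 2))) +
        (Real.log (t / 2) / 2 - Real.log π / 2) * (π * P.f0 0)) := by
    simp_rw [e0]
    have j1 : Integrable (fun u : ℝ => -(AA P D u * Zs (t - u))) := i1.neg
    have j2 : Integrable (fun u : ℝ => -(AA P D u * Zs (t - u)) + AA P D u * QQ (t - u)) :=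
      j1.add i2
    have j3 : Integrable (fun u : ℝ =>
        (1 / 2) * (AA P D u * (Dg (t - u) - Real.log (t / 2)))) := i3.const_mul _
    have j4 : Integrable (fun u : ℝ => (Real.log (t / 2) / 2 - Real.log π / 2) * AA P D u) :=
      hAint.const_mul _
    have j5 : Integrable (fun u : ℝ =>
        (1 / 2) * (AA P D u * (Dg (t - u) - Real.log (t / 2))) +
          (Real.log (t / 2) / 2 - Real.log π / 2) * AA P D u) := j3.add j4
    rw [integral_add j2 j5, integral_add j1 i2, integral_add j3 j4,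
      MeasureTheory.integral_neg, MeasureTheory.integral_const_mul,
      MeasureTheory.integral_const_mul, hA0, integral_AA_Zs (P := P) hD hDx]
  have e2 : Real.log (t / (2 * π)) = Real.log (t / 2) - Real.log π := by
    rw [← div_div, Real.log_div (by positivity) Real.pi_pos.ne']
  have e3 : (∫ u : ℝ, AA P D u * Zr (t - u)) -
      (π * P.f0 0 / 2 * Real.log (t / (2 * π)) - π * (vmPoly (bb P D) x t).re) =
      (∫ u : ℝ, AA P D u * QQ (t - u)) +
      (1 / 2) * (∫ u : ℝ, AA P D u * (Dg (t - u) - Real.log (t / 2))) := by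
    rw [e1, e2]
    ring
  rw [e3]
  have e4 : |∫ u : ℝ, AA P D u * QQ (t - u)| ≤ 4 * (284 * X * (8 * π) / (4 + t ^ 2)) := by
    have h4 := integral_abs_AA_poisson_le (P := P) hD t
    calc |∫ u : ℝ, AA P D u * QQ (t - u)| ≤ ∫ u : ℝ, |AA P D u * QQ (t - u)| :=
          abs_integral_le_integral_abs
      _ ≤ ∫ u : ℝ, 4 * ‖AA P D u * (1 / (1 + (t - u) ^ 2))‖ := by
          refine integral_mono i2.abs ((AA_poisson_integrable (P := P) hD t).norm.const_mul 4)
            fun u => ?_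
          simp only
          rw [abs_mul, norm_mul,
            Real.norm_of_nonneg (by positivity : 0 ≤ 1 / (1 + (t - u) ^ 2)), Real.norm_eq_abs]
          calc _ ≤ |AA P D u| * (4 * (1 / (1 + (t - u) ^ 2))) := by
                gcongr
                exact abs_QQ_le _
            _ = _ := by ring
      _ ≤ _ := by
          rw [MeasureTheory.integral_const_mul]
          gcongr
  have e5 : |∫ u : ℝ, AA P D u * (Dg (t - u) - Real.log (t / 2))| ≤
      284 * X * (64 * (1 + Real.log t)) / t ^ θ * C2 := by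
    calc _ ≤ ∫ u : ℝ, |AA P D u * (Dg (t - u) - Real.log (t / 2))| :=
          abs_integral_le_integral_abs
      _ ≤ ∫ u : ℝ, 284 * X * (64 * (1 + Real.log t)) / t ^ θ *
            ((1 + |u|) ^ θ / (1 + u ^ 2)) :=
          integral_mono i3.abs ((weight_integrable_th (by linarith) h2).const_mul _) hpt
      _ = _ := by rw [MeasureTheory.integral_const_mul]
  have e6 : (284 * X * (8 * π) / (4 + t ^ 2)) ≤ 284 * (8 * π) * (X * (1 + Real.log t) / t ^ θ) := by
    have h5 : t ^ θ ≤ 4 + t ^ 2 := by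
      calc t ^ θ ≤ t ^ (1:ℝ) := Real.rpow_le_rpow_of_exponent_le ht h2.le
        _ = t := Real.rpow_one _
        _ ≤ _ := by nlinarith [sq_nonneg t, mul_pos ht0 ht0]
    calc (284 * X * (8 * π) / (4 + t ^ 2)) ≤ 284 * X * (8 * π) / t ^ θ := by gcongr
      _ = 284 * (8 * π) * (X * 1 / t ^ θ) := by ring
      _ ≤ _ := by gcongr; linarith
  have hY : 0 ≤ X * (1 + Real.log t) / t ^ θ := by positivity
  calc _ ≤ |∫ u : ℝ, AA P D u * QQ (t - u)| +
        |(1 / 2) * (∫ u : ℝ, AA P D u * (Dg (t - u) - Real.log (t / 2)))| := abs_add_le _ _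
    _ ≤ 4 * (284 * (8 * π) * (X * (1 + Real.log t) / t ^ θ)) +
        (1 / 2) * (284 * X * (64 * (1 + Real.log t)) / t ^ θ * C2) := by
        rw [abs_mul, abs_of_pos (by norm_num : (0:ℝ) < 1 / 2)]
        gcongr
        exact e4.trans (by gcongr)
    _ = (4 * 284 * (8 * π) + 32 * 284 * C2) * (X * (1 + Real.log t) / t ^ θ) := by ring
    _ ≤ (4 * 284 * (8 * π) + 32 * 284 * C2 + 1) * (X * (1 + Real.log t) / t ^ θ) :=
        mul_le_mul_of_nonneg_right (by linarith) hY
    _ = _ := by ring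

/-- **Explicit formula** for the test function, under RH. -/
theorem exists_explicit_th (hRH : RiemannHypothesis) {θ : ℝ} (h1 : 1 / 2 ≤ θ) (h2 : θ < 1) : ∃ C : ℝ, 0 < C ∧
    ∀ (P : PhiData) (D : ℝ) (x : ℕ) (t : ℝ), 1 / 2 ≤ D → Real.exp D ≤ x + 1 → 1 ≤ t →
    ∃ S : ℝ, HasSum (fun ρ : ntz => (mult ρ : ℝ) * FF P D (t - (ρ : ℂ).im)) S ∧
      |S - (P.f0 0 / 2 * Real.log (t / (2 * π)) - (vmPoly (bb P D) x t).re)| ≤
        C * Real.exp D * (1 + Real.log t) / t ^ θ := by
  obtain ⟨C, hC, h⟩ := exists_integral_AA_Zr_th h1 h2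
  refine ⟨C / π, by positivity, fun P D x t hD hDx ht => ?_⟩
  have h2' := (hasSum_FF (P := P) hRH hD t).mul_left (1 / π)
  have hpi := Real.pi_pos
  refine ⟨1 / π * ∫ u : ℝ, AA P D u * Zr (t - u), ?_, ?_⟩
  · have e0 : (fun ρ : ntz => (mult ρ : ℝ) * FF P D (t - (ρ : ℂ).im)) =
        fun ρ : ntz => 1 / π * ((mult ρ : ℝ) * (π * FF P D (t - (ρ : ℂ).im))) := by
      funext ρ
      field_simp
    rw [e0]
    exact h2'
  · have h3 := h P D x t hD hDx ht
    have e1 : 1 / π * (∫ u : ℝ, AA P D u * Zr (t - u)) -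
        (P.f0 0 / 2 * Real.log (t / (2 * π)) - (vmPoly (bb P D) x t).re) =
        1 / π * ((∫ u : ℝ, AA P D u * Zr (t - u)) -
      (π * P.f0 0 / 2 * Real.log (t / (2 * π)) - π * (vmPoly (bb P D) x t).re)) := by
      field_simp
    rw [e1, abs_mul, abs_of_pos (by positivity : 0 < 1 / π)]
    calc _ ≤ 1 / π * (C * Real.exp D * (1 + Real.log t) / t ^ θ) := by gcongr
      _ = _ := by ring


end Pool.Agent.ZGap.Gen
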