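import Pool.Agent.ZGap.Gen.TestFun
import Pool.Agent.ZGap.Explicit

/-!
# The explicit formula for a general band-limited test function, under RH
-/

namespace Pool.Agent.ZGap.Gen

open MeasureTheory Real Set ArithmeticFunction Pool.Agent.Hadamard Pool.Agent.DirPoly

variable {P : PhiData}

lemma AA_poisson_integrable {D : ℝ} (hD : 1 / 2 ≤ D) (x : ℝ) :
    Integrable (fun u : ℝ => AA P D u * (1 / (1 + (x - u) ^ 2))) := by
  refine (AA_integrable (P := P) hD).norm.mono' ?_ (Filter.Eventually.of_forall fun u => ?_)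
  · refine Continuous.aestronglyMeasurable ((AA_continuous P D).mul ?_)
    refine Continuous.div continuous_const (by fun_prop) fun v => ?_
    positivity
  · rw [norm_mul, Real.norm_of_nonneg (by positivity : 0 ≤ 1 / (1 + (x - u) ^ 2))]
    refine mul_le_of_le_one_right (norm_nonneg _) ?_
    rw [div_le_one (by positivity)]
    nlinarith [sq_nonneg (x - u)]

lemma integral_abs_AA_poisson_le {D : ℝ} (hD : 1 / 2 ≤ D) (x : ℝ) :
    ∫ u : ℝ, ‖AA P D u * (1 / (1 + (x - u) ^ 2))‖ ≤
      284 * Real.exp D * (8 * π) / (4 + x ^ 2) := by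
  have hg : Integrable (fun u : ℝ => 284 * Real.exp D * (4 / (4 + x ^ 2)) *
      ((1 + u ^ 2)⁻¹ + 1 / (1 + (x - u) ^ 2))) :=
    (integrable_inv_one_add_sq.add (integrable_poisson_shift x)).const_mul _
  calc ∫ u : ℝ, ‖AA P D u * (1 / (1 + (x - u) ^ 2))‖
      ≤ ∫ u : ℝ, 284 * Real.exp D * (4 / (4 + x ^ 2)) *
      ((1 + u ^ 2)⁻¹ + 1 / (1 + (x - u) ^ 2)) := by
        refine integral_mono (AA_poisson_integrable (P := P) hD x).norm hg fun u => ?_
        simp only
        rw [norm_mul, Real.norm_of_nonneg (by positivity : 0 ≤ 1 / (1 + (x - u) ^ 2)),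
          Real.norm_eq_abs]
        calc _ ≤ 284 * Real.exp D / (1 + u ^ 2) * (1 / (1 + (x - u) ^ 2)) := by
              gcongr
              exact abs_AA_le hD
          _ = 284 * Real.exp D * ((1 / (1 + u ^ 2)) * (1 / (1 + (x - u) ^ 2))) := by ring
          _ ≤ 284 * Real.exp D * (4 / (4 + x ^ 2) * (1 / (1 + u ^ 2) + 1 / (1 + (x - u) ^ 2))) :=
              mul_le_mul_of_nonneg_left (poisson_mul_le x u) (by positivity)
          _ = _ := by rw [one_div (1 + u ^ 2)]; ring
    _ = 284 * Real.exp D * (4 / (4 + x ^ 2)) * (π + π) := by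
        rw [MeasureTheory.integral_const_mul, integral_add integrable_inv_one_add_sq
          (integrable_poisson_shift x), integral_poisson_shift, integral_univ_inv_one_add_sq]
    _ = _ := by ring

/-- The sum over zeros as an integral. -/
theorem hasSum_FF (hRH : RiemannHypothesis) {D : ℝ}
    (hD : 1 / 2 ≤ D) (t : ℝ) :
    HasSum (fun ρ : ntz => (mult ρ : ℝ) * (π * FF P D (t - (ρ : ℂ).im)))
      (∫ u : ℝ, AA P D u * Zr (t - u)) := by
  have h2 := hasSum_integral_of_summable_integral_norm (μ := volume)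
    (F := fun (ρ : ntz) (u : ℝ) =>
      (mult ρ : ℝ) * (AA P D u * (1 / (1 + ((t - (ρ : ℂ).im) - u) ^ 2)))) ?_ ?_
  · have e1 : ∀ ρ : ntz, ∫ u : ℝ, (mult ρ : ℝ) *
        (AA P D u * (1 / (1 + ((t - (ρ : ℂ).im) - u) ^ 2))) =
        (mult ρ : ℝ) * (π * FF P D (t - (ρ : ℂ).im)) := by
      intro ρ
      rw [MeasureTheory.integral_const_mul, integral_AA_poisson (P := P) hD]
    have e2 : ∀ u : ℝ, ∑' ρ : ntz, (mult ρ : ℝ) *
        (AA P D u * (1 / (1 + ((t - (ρ : ℂ).im) - u) ^ 2))) = AA P D u * Zr (t - u) := by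
      intro u
      rw [← (hasSum_poisson hRH (t - u)).tsum_eq, ← tsum_mul_left]
      refine tsum_congr fun ρ => ?_
      have : t - (ρ : ℂ).im - u = t - u - (ρ : ℂ).im := by ring
      rw [this]
      ring
    simp_rw [e1, e2] at h2
    exact h2
  · intro ρ
    exact (AA_poisson_integrable (P := P) hD _).const_mul _
  · have h3 := (hasSum_poisson hRH t).summable.mul_left (284 * Real.exp D * (8 * π))
    refine Summable.of_nonneg_of_le (fun ρ => ?_) (fun ρ => ?_) h3
    · exact integral_nonneg fun u => norm_nonneg _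
    · have e3 : ∀ u : ℝ, ‖(mult ρ : ℝ) * (AA P D u * (1 / (1 + ((t - (ρ : ℂ).im) - u) ^ 2)))‖ =
          (mult ρ : ℝ) * ‖AA P D u * (1 / (1 + ((t - (ρ : ℂ).im) - u) ^ 2))‖ := by
        intro u
        rw [norm_mul, Real.norm_natCast]
      simp_rw [e3]
      rw [MeasureTheory.integral_const_mul]
      calc _ ≤ (mult ρ : ℝ) * (284 * Real.exp D * (8 * π) / (4 + (t - (ρ : ℂ).im) ^ 2)) := by
            gcongr
            exact integral_abs_AA_poisson_le (P := P) hD _
        _ ≤ (mult ρ : ℝ) * (284 * Real.exp D * (8 * π) / (1 + (t - (ρ : ℂ).im) ^ 2)) := by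
            gcongr
            norm_num
        _ = _ := by ring

end Pool.Agent.ZGap.Gen
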