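import Pool.Agent.ZGap.Gen.Kernel

/-!
# Fourier inversion for `gfun` and the Poisson representation of the test function
-/

namespace Pool.Agent.ZGap.Gen

open MeasureTheory Real Set FourierTransform

variable {P : PhiData}

@[fun_prop]
lemma AA_continuous (P : PhiData) (D : ℝ) : Continuous (AA P D) := by
  unfold AA
  apply intervalIntegral.continuous_parametric_intervalIntegral_of_continuous'
  simp only [Function.uncurry_def]
  fun_prop

lemma AA_integrable {D : ℝ} (hD : 1 / 2 ≤ D) :
    Integrable (AA P D) := by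
  refine ((integrable_inv_one_add_sq).const_mul (284 * Real.exp D)).mono'
    (AA_continuous P D).aestronglyMeasurable (Filter.Eventually.of_forall fun u => ?_)
  rw [Real.norm_eq_abs, ← div_eq_mul_inv]
  exact abs_AA_le hD

lemma integral_gfun_cos {D : ℝ} (hD : 0 < D) (u : ℝ) :
    ∫ v : ℝ, gfun P D v * Real.cos (u * v) = 2 * AA P D u := by
  have h1 : ∀ v : ℝ, gfun P D v * Real.cos (u * v) =
      (fun r => gfun P D r * Real.cos (u * r)) |v| := by
    intro v
    simp only
    rcases abs_cases v with ⟨h, _⟩ | ⟨h, _⟩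
    · rw [h]
    · rw [h, gfun_neg, mul_neg, Real.cos_neg]
  rw [funext h1, integral_comp_abs (f := fun r => gfun P D r * Real.cos (u * r))]
  congr 1
  rw [AA, intervalIntegral.integral_of_le hD.le]
  rw [setIntegral_eq_of_subset_of_forall_sdiff_eq_zero measurableSet_Ioi
    (s := Ioc 0 D) Ioc_subset_Ioi_self]
  · refine setIntegral_congr_fun measurableSet_Ioc fun v hv => ?_
    rw [gfun_of_nonneg_le hD hv.1.le hv.2]
  · intro v hv
    have h2 : D ≤ |v| := by
      have h3 : 0 < v := hv.1
      rw [abs_of_pos h3]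
      by_contra h
      push Not at h
      exact hv.2 ⟨h3, h.le⟩
    rw [gfun_of_le hD h2, zero_mul]

lemma integral_gfun_sin {D : ℝ} (u : ℝ) :
    ∫ v : ℝ, gfun P D v * Real.sin (u * v) = 0 := by
  have h1 := integral_neg_eq_self (fun v : ℝ => gfun P D v * Real.sin (u * v)) volume
  simp only [gfun_neg, mul_neg, Real.sin_neg] at h1
  rw [MeasureTheory.integral_neg] at h1
  linarith

lemma fourier_gfun {D : ℝ} (hD : 0 < D) (w : ℝ) :
    𝓕 (fun ξ : ℝ => (gfun P D ξ : ℂ)) w = ((2 * AA P D (2 * π * w) : ℝ) : ℂ) := by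
  rw [Real.fourier_real_eq_integral_exp_smul]
  have h1 : ∀ v : ℝ, Complex.exp (↑(-2 * π * v * w) * Complex.I) • (gfun P D v : ℂ) =
      ((gfun P D v * Real.cos (2 * π * w * v) : ℝ) : ℂ) -
        ((gfun P D v * Real.sin (2 * π * w * v) : ℝ) : ℂ) * Complex.I := by
    intro v
    rw [Complex.exp_mul_I, ← Complex.ofReal_cos, ← Complex.ofReal_sin, smul_eq_mul]
    have h2 : -2 * π * v * w = -(2 * π * w * v) := by ring
    rw [h2, Real.cos_neg, Real.sin_neg]
    push_cast
    ring
  simp_rw [h1]
  have hg := gfun_integrable (P := P) hD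
  have hi1 : Integrable (fun v => gfun P D v * Real.cos (2 * π * w * v)) := by
    refine hg.norm.mono' (Continuous.aestronglyMeasurable (by fun_prop))
      (Filter.Eventually.of_forall fun v => ?_)
    rw [norm_mul, Real.norm_eq_abs, Real.norm_eq_abs]
    exact mul_le_of_le_one_right (abs_nonneg _) (Real.abs_cos_le_one _)
  have hi2 : Integrable (fun v => gfun P D v * Real.sin (2 * π * w * v)) := by
    refine hg.norm.mono' (Continuous.aestronglyMeasurable (by fun_prop))
      (Filter.Eventually.of_forall fun v => ?_)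
    rw [norm_mul, Real.norm_eq_abs, Real.norm_eq_abs]
    exact mul_le_of_le_one_right (abs_nonneg _) (Real.abs_sin_le_one _)
  rw [integral_sub hi1.ofReal (hi2.ofReal.mul_const _), integral_mul_const,
    integral_complex_ofReal, integral_complex_ofReal, integral_gfun_cos hD, integral_gfun_sin]
  simp

/-- Fourier inversion. -/
theorem integral_AA_exp {D : ℝ} (hD : 1 / 2 ≤ D) (L : ℝ) :
    ∫ u : ℝ, Complex.exp ((u * L : ℝ) * Complex.I) * (AA P D u : ℂ) =
      ((π * gfun P D L : ℝ) : ℂ) := by
  have hD0 : 0 < D := by linarith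
  have hF : 𝓕 (fun ξ : ℝ => (gfun P D ξ : ℂ)) =
      fun w => ((2 * AA P D (2 * π * w) : ℝ) : ℂ) := funext fun w => fourier_gfun hD0 w
  have hint : Integrable (𝓕 (fun ξ : ℝ => (gfun P D ξ : ℂ))) := by
    rw [hF]
    exact (((AA_integrable (P := P) hD).comp_mul_left' (by positivity)).const_mul 2).ofReal
  have h2 := Continuous.fourierInv_fourier_eq (f := fun ξ : ℝ => (gfun P D ξ : ℂ))
    (by fun_prop) (gfun_integrable hD0).ofReal hint
  have h3 := congrFun h2 L
  rw [hF, Real.fourierInv_eq'] at h3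
  have h4 := Measure.integral_comp_mul_left
    (fun u : ℝ => Complex.exp ((u * L : ℝ) * Complex.I) * ((2 * AA P D u : ℝ) : ℂ)) (2 * π)
  have h5 : ∀ w : ℝ, Complex.exp (↑(2 * π * inner ℝ w L) * Complex.I) •
      ((2 * AA P D (2 * π * w) : ℝ) : ℂ) = Complex.exp ((2 * π * w * L : ℝ) * Complex.I) *
        ((2 * AA P D (2 * π * w) : ℝ) : ℂ) := by
    intro w
    rw [smul_eq_mul]
    congr 3
    simp only [RCLike.inner_apply, conj_trivial]
    push_cast
    ring
  simp_rw [h5] at h3
  rw [h3] at h4
  have h6 : ∀ u : ℝ, Complex.exp ((u * L : ℝ) * Complex.I) * ((2 * AA P D u : ℝ) : ℂ) =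
      2 * (Complex.exp ((u * L : ℝ) * Complex.I) * (AA P D u : ℂ)) := by
    intro u; push_cast; ring
  simp_rw [h6] at h4
  rw [integral_const_mul, abs_of_pos (by positivity), Complex.real_smul] at h4
  have h7 : (π : ℂ) ≠ 0 := by exact_mod_cast Real.pi_ne_zero
  rw [Complex.ofReal_mul, h4]
  set J := ∫ u : ℝ, Complex.exp ((u * L : ℝ) * Complex.I) * (AA P D u : ℂ) with hJ
  push_cast
  field_simp

lemma AA_mul_cos_integrable {D : ℝ} (hD : 1 / 2 ≤ D) (L : ℝ) :
    Integrable (fun u => AA P D u * Real.cos (u * L)) := by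
  refine (AA_integrable (P := P) hD).norm.mono' (Continuous.aestronglyMeasurable (by fun_prop))
      (Filter.Eventually.of_forall fun v => ?_)
  rw [norm_mul, Real.norm_eq_abs, Real.norm_eq_abs]
  exact mul_le_of_le_one_right (abs_nonneg _) (Real.abs_cos_le_one _)

lemma AA_mul_sin_integrable {D : ℝ} (hD : 1 / 2 ≤ D) (L : ℝ) :
    Integrable (fun u => AA P D u * Real.sin (u * L)) := by
  refine (AA_integrable (P := P) hD).norm.mono' (Continuous.aestronglyMeasurable (by fun_prop))
      (Filter.Eventually.of_forall fun v => ?_)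
  rw [norm_mul, Real.norm_eq_abs, Real.norm_eq_abs]
  exact mul_le_of_le_one_right (abs_nonneg _) (Real.abs_sin_le_one _)

theorem integral_AA_cos_sin {D : ℝ} (hD : 1 / 2 ≤ D) (L : ℝ) :
    ∫ u : ℝ, AA P D u * Real.cos (u * L) = π * gfun P D L ∧
    ∫ u : ℝ, AA P D u * Real.sin (u * L) = 0 := by
  have h2 := integral_AA_exp (P := P) hD L
  have h3 : ∀ u : ℝ, Complex.exp ((u * L : ℝ) * Complex.I) * (AA P D u : ℂ) =
      ((AA P D u * Real.cos (u * L) : ℝ) : ℂ) +
        ((AA P D u * Real.sin (u * L) : ℝ) : ℂ) * Complex.I := by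
    intro u
    rw [Complex.exp_mul_I, ← Complex.ofReal_cos, ← Complex.ofReal_sin]
    push_cast
    ring
  simp_rw [h3] at h2
  rw [integral_add (AA_mul_cos_integrable (P := P) hD L).ofReal
    ((AA_mul_sin_integrable (P := P) hD L).ofReal.mul_const _), integral_mul_const,
    integral_complex_ofReal, integral_complex_ofReal] at h2
  constructor
  · have := congrArg Complex.re h2
    simpa using this
  · have := congrArg Complex.im h2
    simpa using this

/-- Shifted cosine integral. -/
theorem integral_AA_cos_shift {D : ℝ} (hD : 1 / 2 ≤ D) (t L : ℝ) :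
    ∫ u : ℝ, AA P D u * Real.cos ((t - u) * L) = π * gfun P D L * Real.cos (t * L) := by
  obtain ⟨h2, h3⟩ := integral_AA_cos_sin (P := P) hD L
  have h4 : ∀ u : ℝ, AA P D u * Real.cos ((t - u) * L) =
      (AA P D u * Real.cos (u * L)) * Real.cos (t * L) +
      (AA P D u * Real.sin (u * L)) * Real.sin (t * L) := by
    intro u
    rw [sub_mul, Real.cos_sub]
    ring
  simp_rw [h4]
  rw [integral_add ((AA_mul_cos_integrable (P := P) hD L).mul_const _)
    ((AA_mul_sin_integrable (P := P) hD L).mul_const _), integral_mul_const, integral_mul_const,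
    h2, h3]
  ring

end Pool.Agent.ZGap.Gen
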