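import Pool.Agent.ZGap.Gen.Fourier

/-!
# The test function `FF` : Poisson representation, closed form and sign
-/

namespace Pool.Agent.ZGap.Gen

open MeasureTheory Real Set

variable {P : PhiData}

/-- The (unnormalised) test function. -/
noncomputable def FF (P : PhiData) (D x : ℝ) : ℝ :=
  ∫ η in (0:ℝ)..D, P.f0 (η / D) * Real.cos (x * η)

lemma poisson_integral (y : ℝ) :
    ∫ η in Ioi (0:ℝ), Real.exp (-η) * Real.cos (y * η) = 1 / (1 + y ^ 2) := by
  have h1 : (-1 + y * Complex.I : ℂ).re < 0 := by simp
  have h2 := integral_exp_mul_complex_Ioi h1 0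
  have h3 : ∀ η : ℝ, Complex.exp ((-1 + y * Complex.I) * η) =
      Complex.exp (((-η : ℝ) : ℂ) + ((y * η : ℝ) : ℂ) * Complex.I) := by
    intro η; congr 1; push_cast; ring
  have h4 : ∀ η : ℝ, (Complex.exp ((-1 + y * Complex.I) * η)).re =
      Real.exp (-η) * Real.cos (y * η) := by
    intro η
    rw [h3, Complex.exp_re]
    simp
  have h5 : IntegrableOn (fun η : ℝ => Complex.exp ((-1 + y * Complex.I) * η)) (Ioi 0) := by
    exact integrableOn_exp_mul_complex_Ioi h1 0
  have h6 := integral_re (𝕜 := ℂ) h5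
  simp only [RCLike.re_eq_complex_re] at h6
  simp_rw [h4] at h6
  rw [h6, h2]
  simp only [Complex.ofReal_zero, mul_zero, Complex.exp_zero]
  rw [Complex.div_re]
  simp [Complex.normSq_apply]
  field_simp

lemma integrableOn_exp_neg_cos (y : ℝ) :
    IntegrableOn (fun η : ℝ => Real.exp (-η) * Real.cos (y * η)) (Ioi 0) := by
  have h1 : IntegrableOn (fun η : ℝ => Real.exp (-η)) (Ioi 0) := integrableOn_exp_neg_Ioi 0
  refine Integrable.mono' h1 (Continuous.aestronglyMeasurable (by fun_prop))
    (Filter.Eventually.of_forall fun η => ?_)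
  rw [norm_mul, Real.norm_eq_abs, Real.norm_eq_abs, abs_of_pos (Real.exp_pos _)]
  exact mul_le_of_le_one_right (Real.exp_pos _).le (Real.abs_cos_le_one _)

/-- Poisson representation of the test function. -/
theorem integral_AA_poisson {D : ℝ} (hD : 1 / 2 ≤ D) (x : ℝ) :
    ∫ u : ℝ, AA P D u * (1 / (1 + (x - u) ^ 2)) = π * FF P D x := by
  have hD0 : 0 < D := by linarith
  have e1 : ∀ u : ℝ, AA P D u * (1 / (1 + (x - u) ^ 2)) =
      ∫ η in Ioi (0:ℝ), AA P D u * (Real.exp (-η) * Real.cos ((x - u) * η)) := by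
    intro u
    rw [MeasureTheory.integral_const_mul, poisson_integral]
  simp_rw [e1]
  rw [integral_integral_swap]
  · have e2 : ∀ η : ℝ, ∫ u : ℝ, AA P D u * (Real.exp (-η) * Real.cos ((x - u) * η)) =
        π * (Real.exp (-η) * (gfun P D η * Real.cos (x * η))) := by
      intro η
      have e3 : ∀ u : ℝ, AA P D u * (Real.exp (-η) * Real.cos ((x - u) * η)) =
          Real.exp (-η) * (AA P D u * Real.cos ((x - u) * η)) := by intro u; ring
      simp_rw [e3]
      rw [MeasureTheory.integral_const_mul, integral_AA_cos_shift (P := P) hD]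
      ring
    simp_rw [e2]
    rw [MeasureTheory.integral_const_mul]
    congr 1
    rw [FF, intervalIntegral.integral_of_le hD0.le]
    rw [setIntegral_eq_of_subset_of_forall_sdiff_eq_zero measurableSet_Ioi
      (s := Ioc 0 D) Ioc_subset_Ioi_self]
    · refine setIntegral_congr_fun measurableSet_Ioc fun v hv => ?_
      rw [gfun_of_nonneg_le hD0 hv.1.le hv.2]
      have : Real.exp (-v) * Real.exp v = 1 := by rw [← Real.exp_add]; simp
      calc _ = (Real.exp (-v) * Real.exp v) * (P.f0 (v / D) * Real.cos (x * v)) := by ring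
        _ = _ := by rw [this, one_mul]
    · intro v hv
      have h2 : D ≤ |v| := by
        have h3 : 0 < v := hv.1
        rw [abs_of_pos h3]
        by_contra h
        push Not at h
        exact hv.2 ⟨h3, h.le⟩
      rw [gfun_of_le hD0 h2]
      ring
  · have h2 : Integrable (fun η : ℝ => Real.exp (-η)) (volume.restrict (Ioi 0)) :=
      integrableOn_exp_neg_Ioi 0
    have h3 := (AA_integrable (P := P) hD).mul_prod h2
    refine h3.norm.mono' ?_ (Filter.Eventually.of_forall fun z => ?_)
    · apply Continuous.aestronglyMeasurable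
      simp only [Function.uncurry_def]
      fun_prop
    · simp only [Function.uncurry_def]
      rw [norm_mul, norm_mul, norm_mul, Real.norm_eq_abs (Real.cos _)]
      have := Real.abs_cos_le_one ((x - z.1) * z.2)
      calc ‖AA P D z.1‖ * (‖Real.exp (-z.2)‖ * |Real.cos ((x - z.1) * z.2)|)
          ≤ ‖AA P D z.1‖ * (‖Real.exp (-z.2)‖ * 1) := by gcongr
        _ = _ := by rw [mul_one]

end Pool.Agent.ZGap.Gen
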